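import Pool.Agent.H73.GWQ.Stmts

/-! # Row H4Q of project GWQ: the four point inequality -/

set_option autoImplicit false

namespace GWQ

theorem H4Q {G V : Type*} [Group G] (D : QM G V) (h1 : H4TStmt V) : H4QStmt D := by
  intro x y z w
  have h := h1 D.T D.tree (D.f x) (D.f y) (D.f z) (D.f w)
  have a1 := D.le1 x y
  have a2 := D.le1 z w
  have b1 := D.le2 x z
  have b2 := D.le2 y w
  have b3 := D.le2 x w
  have b4 := D.le2 y z
  omega

end GWQ
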